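import Pool.Agent.Y382.MX.Stm

/-!
# MX-NIL: the mixed identities of a finite nilpotent group have a finite basis
-/

set_option autoImplicit false

namespace Pool.Agent.Y974.MX

open Pool.Agent.Helper60.Mixed Pool.Agent.Y382.MX

section Quot

variable {C : Type} (S : Set (MTerm C × MTerm C))

/-- derivability as an equivalence relation -/
def sd : Setoid (MTerm C) :=
  ⟨Derives S, ⟨Derives.refl, Derives.symm, Derives.trans⟩⟩

/-- the relatively free system -/
def Wt : Type := Quotient (sd S)

/-- the class of a term -/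
def mk (t : MTerm C) : Wt S := Quotient.mk (sd S) t

theorem mk_surj (w : Wt S) : ∃ t, mk S t = w := Quotient.exists_rep w

theorem mk_eq {s t : MTerm C} : mk S s = mk S t ↔ Derives S s t :=
  ⟨fun h => Quotient.exact h, fun h => Quotient.sound h⟩

instance : Mul (Wt S) :=
  ⟨Quotient.map₂ MTerm.mul (fun _ _ h _ _ h' => Derives.mul h h')⟩

instance : Inv (Wt S) := ⟨Quotient.map MTerm.inv (fun _ _ h => Derives.inv h)⟩

instance : One (Wt S) := ⟨mk S MTerm.one⟩

theorem mk_mul (s t : MTerm C) : mk S (MTerm.mul s t) = mk S s * mk S t := rfl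

theorem mk_inv (s : MTerm C) : mk S (MTerm.inv s) = (mk S s)⁻¹ := rfl

theorem mk_one : mk S MTerm.one = 1 := rfl

/-- substitution of three terms -/
def s3 (a b c : MTerm C) : ℕ → MTerm C
  | 0 => a
  | 1 => b
  | _ => c

/-- the relatively free system is a group -/
@[reducible]
def grp
    (h1 : Derives S (MTerm.mul (MTerm.mul (MTerm.var 0) (MTerm.var 1)) (MTerm.var 2))
      (MTerm.mul (MTerm.var 0) (MTerm.mul (MTerm.var 1) (MTerm.var 2))))
    (h2 : Derives S (MTerm.mul MTerm.one (MTerm.var 0)) (MTerm.var 0))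
    (h3 : Derives S (MTerm.mul (MTerm.inv (MTerm.var 0)) (MTerm.var 0)) MTerm.one) :
    Group (Wt S) :=
  Group.ofLeftAxioms
    (by
      intro a b c
      obtain ⟨a, rfl⟩ := mk_surj S a
      obtain ⟨b, rfl⟩ := mk_surj S b
      obtain ⟨c, rfl⟩ := mk_surj S c
      rw [← mk_mul, ← mk_mul, ← mk_mul, ← mk_mul, mk_eq]
      exact Derives.subst (s3 a b c) h1)
    (by
      intro a
      obtain ⟨a, rfl⟩ := mk_surj S a
      rw [← mk_one, ← mk_mul, mk_eq]
      exact Derives.subst (s3 a a a) h2)
    (by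
      intro a
      obtain ⟨a, rfl⟩ := mk_surj S a
      rw [← mk_one, ← mk_inv, ← mk_mul, mk_eq]
      exact Derives.subst (s3 a a a) h3)

end Quot

section Terms

variable {C : Type}

theorem subst_var (t : MTerm C) : t.subst MTerm.var = t := by
  induction t with
  | var i => rfl
  | const c => rfl
  | one => rfl
  | mul s t ihs iht => simp only [MTerm.subst, ihs, iht]
  | inv s ih => simp only [MTerm.subst, ih]

theorem bound_subst (σ : ℕ → MTerm C) (N : ℕ) (hσ : ∀ i, (σ i).bound ≤ N) (t : MTerm C) :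
    (t.subst σ).bound ≤ N := by
  induction t with
  | var i => exact hσ i
  | const c => exact Nat.zero_le _
  | one => exact Nat.zero_le _
  | mul s t ihs iht => exact max_le ihs iht
  | inv s ih => exact ih

/-- the term of the left normed commutator -/
def lt (C : Type) : ℕ → MTerm C
  | 0 => MTerm.var 0
  | j + 1 => MTerm.mul (MTerm.mul (MTerm.mul (lt C j) (MTerm.var (j + 1))) (MTerm.inv (lt C j)))
      (MTerm.inv (MTerm.var (j + 1)))

theorem bound_lt (j : ℕ) : (lt C j).bound ≤ j + 1 := by
  induction j with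
  | zero => exact le_refl _
  | succ j ih =>
    simp only [lt, MTerm.bound]
    omega

theorem eval_lt {H : Type} [Group H] (k : C → H) (a : ℕ → H) (j : ℕ) :
    (lt C j).eval (gi k) a = lnc a j := by
  induction j with
  | zero => rfl
  | succ j ih =>
    simp only [lt, MTerm.eval, lnc, ih]
    rfl

theorem lnc_mem {H : Type} [Group H] (a : ℕ → H) (j : ℕ) :
    lnc a j ∈ (⊤ : Subgroup H).lowerCentralSeries j := by
  induction j with
  | zero => exact Subgroup.mem_top _
  | succ j ih =>
    rw [Subgroup.lowerCentralSeries_succ]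
    exact Subgroup.commutator_mem_commutator ih (Subgroup.mem_top _)

end Terms

theorem t_NIL (hR : S_NRED) (hF : S_FIN) (hL : S_LNC) : S_NIL := by
  intro G _ _ hG
  obtain ⟨c, hc⟩ := Subgroup.nilpotent_iff_lowerCentralSeries.1 hG
  obtain ⟨S, hSf, hSm, hS⟩ := hF G (max (c + 1) 3)
  refine ⟨S, hSf, hSm, ?_⟩
  have h1 : Derives S (MTerm.mul (MTerm.mul (MTerm.var 0) (MTerm.var 1)) (MTerm.var 2))
      (MTerm.mul (MTerm.var 0) (MTerm.mul (MTerm.var 1) (MTerm.var 2))) :=
    hS ⟨_, _⟩ (fun ρ => mul_assoc (ρ 0) (ρ 1) (ρ 2))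
      (by simp [MTerm.bound]) (by simp [MTerm.bound])
  have h2 : Derives S (MTerm.mul MTerm.one (MTerm.var 0)) (MTerm.var 0) :=
    hS ⟨_, _⟩ (fun ρ => one_mul (ρ 0)) (by simp [MTerm.bound]) (by simp [MTerm.bound])
  have h3 : Derives S (MTerm.mul (MTerm.inv (MTerm.var 0)) (MTerm.var 0)) MTerm.one :=
    hS ⟨_, _⟩ (fun ρ => inv_mul_cancel (ρ 0)) (by simp [MTerm.bound]) (by simp [MTerm.bound])
  let : Group (Wt S) := grp S h1 h2 h3
  let k : G → Wt S := fun g => mk S (MTerm.const g)
  -- the value of a term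
  have hval : ∀ (t : MTerm G) (σ : ℕ → MTerm G),
      t.eval (gi k) (fun i => mk S (σ i)) = mk S (t.subst σ) := by
    intro t σ
    induction t with
    | var i => rfl
    | const c => rfl
    | one => rfl
    | mul s t ihs iht =>
      simp only [MTerm.eval, MTerm.subst, ihs, iht]
      rfl
    | inv s ih =>
      simp only [MTerm.eval, MTerm.subst, ih]
      rfl
  -- bounded identities hold
  have hold : ∀ s t : MTerm G, (∀ ρ : ℕ → G, s.eval (gi fun g => g) ρ = t.eval (gi fun g => g) ρ) →
      s.bound ≤ max (c + 1) 3 → t.bound ≤ max (c + 1) 3 →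
      ∀ ρ : ℕ → Wt S, s.eval (gi k) ρ = t.eval (gi k) ρ := by
    intro s t hst hs ht ρ
    choose σ hσ using fun i => mk_surj S (ρ i)
    have hρ : ρ = fun i => mk S (σ i) := funext fun i => (hσ i).symm
    rw [hρ, hval, hval, mk_eq]
    exact Derives.subst σ (hS ⟨s, t⟩ hst hs ht)
  have hW : (⊤ : Subgroup (Wt S)).lowerCentralSeries c = ⊥ := by
    apply hL
    intro a
    have h4 := hold (lt G c) MTerm.one (by
      intro ρ
      have h5 := lnc_mem ρ c
      rw [hc, Subgroup.mem_bot] at h5
      rw [eval_lt, h5]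
      rfl) ((bound_lt c).trans (le_max_left _ _)) (Nat.zero_le _) a
    rw [eval_lt] at h4
    exact h4
  intro e he
  have ht : ∀ ρ : ℕ → G, (MTerm.mul e.1 (MTerm.inv e.2)).eval (gi fun g => g) ρ = 1 := by
    intro ρ
    have h5 : e.1.eval (gi fun g => g) ρ = e.2.eval (gi fun g => g) ρ := he ρ
    change e.1.eval (gi fun g => g) ρ * (e.2.eval (gi fun g => g) ρ)⁻¹ = 1
    rw [h5, mul_inv_cancel]
  have h6 := hR G (Wt S) k c hW (MTerm.mul e.1 (MTerm.inv e.2)) (fun i => mk S (MTerm.var i)) (by
    intro I hI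
    classical
    let f : ℕ → ℕ := fun i => if h : i ∈ I then (I.equivFin ⟨i, h⟩ : ℕ) else 0
    let g : ℕ → ℕ := fun j => if h : j < I.card then (I.equivFin.symm ⟨j, h⟩ : ℕ) else 0
    have hgf : ∀ i ∈ I, g (f i) = i := by
      intro i hi
      simp only [f, g, dif_pos hi]
      rw [dif_pos (I.equivFin ⟨i, hi⟩).2]
      simp
    have hfb : ∀ i ∈ I, f i < c := by
      intro i hi
      simp only [f, dif_pos hi]
      exact lt_of_lt_of_le (I.equivFin ⟨i, hi⟩).2 hI
    have h7 := hold ((MTerm.mul e.1 (MTerm.inv e.2)).subst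
      (fun i => if i ∈ I then MTerm.var (f i) else MTerm.one)) MTerm.one (by
        intro ρ
        rw [MTerm.eval_subst, ht]
        rfl) (bound_subst _ _ (by
          intro i
          by_cases hi : i ∈ I
          · rw [if_pos hi]
            have := hfb i hi
            simp only [MTerm.bound]
            omega
          · rw [if_neg hi]
            exact Nat.zero_le _) _) (Nat.zero_le _) (fun j => mk S (MTerm.var (g j)))
    rw [MTerm.eval_subst] at h7
    have h8 : (fun i => (if i ∈ I then MTerm.var (f i) else MTerm.one : MTerm G).eval (gi k)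
        (fun j => mk S (MTerm.var (g j)))) =
        (fun i => if i ∈ I then mk S (MTerm.var i) else 1) := by
      funext i
      by_cases hi : i ∈ I
      · rw [if_pos hi, if_pos hi]
        change mk S (MTerm.var (g (f i))) = _
        rw [hgf i hi]
      · rw [if_neg hi, if_neg hi]
        rfl
    rw [h8] at h7
    exact h7)
  rw [hval, subst_var, mk_mul, mk_inv] at h6
  have h9 : mk S e.1 = mk S e.2 := mul_inv_eq_one.1 h6
  exact (mk_eq S).1 h9

end Pool.Agent.Y974.MX
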